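import Pool.Agent.RDF.Main

/-!
MP_1678ab_co, Q1: for all pairs of distinct primes `p, q` with `p = q = 3 mod 4` there is a
`(D × V_{pq}, D × V_1, 3, 1)`-RDF.
-/

namespace Pool.Agent.Results.MP_1678ab_co.AllPairs

open Pool.Agent.RDF

/-- Question 1: for distinct primes `p, q` with `p = q = 3 mod 4` there is a difference family over `D × V_{pq}`,
relative to `D × V_1`, which is resolvable with respect to a subgroup of order two of `D × V_1`. -/
theorem result : ∀ p q : ℕ, p.Prime → q.Prime → p ≠ q → p % 4 = 3 → q % 4 = 3 →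
    ∃ F : Multiset (Finset (G (ZMod p × ZMod q))), IsRDF F :=
  fun _ _ hp hq hpq h3p h3q => exists_rdf_pq hp hq hpq h3p h3q

end Pool.Agent.Results.MP_1678ab_co.AllPairs
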